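import Pool.Agent.Helper78.AV.Mach
import Pool.Agent.Helper4.UN.E1

/-!
Sharpness: the special linear group of rank four, acting on the sum of the standard
representation, its exterior square, and their duals.
-/

open Module MTPairs

namespace AV.SH4

open TR TR.W3 AV.SM

variable {K : Type*} [Field K]

/-- The indices of the standard representation. -/
abbrev A1 : Type := Ix (Fin 4) 1
/-- The indices of the exterior square. -/
abbrev A2 : Type := Ix (Fin 4) 2
/-- The indices of half of the example. -/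
abbrev A3 : Type := A1 ⊕ A2

/-- The operators. -/
noncomputable def N (K : Type*) [Field K] (i j : Fin 4) : Matrix A3 A3 K :=
  Matrix.fromBlocks (M K 1 i j) 0 0 (M K 2 i j)

lemma rel : Rel (N K) := by
  refine ⟨?_, ?_, ?_, ?_, ?_, ?_⟩
  · intro i j
    rw [N, N, Matrix.fromBlocks_multiply, M_diag_mul, M_diag_mul]; simp
  · intro i j h
    rw [N, N, Matrix.fromBlocks_multiply, M_mul_diag h, M_mul_diag h]; simp
  · intro i j h
    rw [N, Matrix.fromBlocks_multiply, M_sq h, M_sq h]; simp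
  · intro i j
    rw [N, N, Matrix.fromBlocks_multiply, M_mul_same, M_mul_same]; simp
  · intro i j h
    rw [N, N, Matrix.fromBlocks_multiply, M_same_mul h, M_same_mul h]; simp
  · intro i j
    rw [N, N, N, N, Matrix.fromBlocks_multiply, Matrix.fromBlocks_multiply, sub_eq_add_neg,
      Matrix.fromBlocks_neg, Matrix.fromBlocks_add, sub_eq_add_neg, Matrix.fromBlocks_neg,
      Matrix.fromBlocks_add]
    have h1 := M_cross (K := K) (k := 1) (i := i) (j := j)
    have h2 := M_cross (K := K) (k := 2) (i := i) (j := j)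
    rw [sub_eq_add_neg, sub_eq_add_neg] at h1 h2
    congr 1
    · simpa using h1
    · simp
    · simp
    · simpa using h2

/-- Inclusion of the standard representation. -/
def j1 (K : Type*) [Field K] : (A1 → K) →ₗ[K] (A3 → K) where
  toFun v := Sum.elim v 0
  map_add' a b := by ext (i | i) <;> simp
  map_smul' c a := by ext (i | i) <;> simp

/-- Inclusion of the exterior square. -/
def j2 (K : Type*) [Field K] : (A2 → K) →ₗ[K] (A3 → K) where
  toFun v := Sum.elim (0 : A1 → K) v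
  map_add' a b := by ext (i | i) <;> simp
  map_smul' c a := by ext (i | i) <;> simp

lemma j1_apply (v : A1 → K) : j1 K v = Sum.elim v 0 := rfl
lemma j2_apply (v : A2 → K) : j2 K v = Sum.elim (0 : A1 → K) v := rfl

lemma j1_inj : Function.Injective (j1 K) := by
  intro v w h
  ext i
  exact congrFun h (Sum.inl i)

lemma j2_inj : Function.Injective (j2 K) := by
  intro v w h
  ext i
  exact congrFun h (Sum.inr i)

lemma blk_j1 (a : Matrix A1 A1 K) (b : Matrix A2 A2 K) (v : A1 → K) :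
    (Matrix.fromBlocks a 0 0 b).mulVec (j1 K v) = j1 K (a.mulVec v) := by
  rw [j1_apply, j1_apply, Matrix.fromBlocks_mulVec]
  ext (i | i) <;> simp

lemma blk_j2 (a : Matrix A1 A1 K) (b : Matrix A2 A2 K) (v : A2 → K) :
    (Matrix.fromBlocks a 0 0 b).mulVec (j2 K v) = j2 K (b.mulVec v) := by
  rw [j2_apply, j2_apply, Matrix.fromBlocks_mulVec]
  ext (i | i) <;> simp

/-- Full block diagonal matrices. -/
def Q (a : Matrix A1 A1 K) (b : Matrix A2 A2 K) (c : Matrix A1 A1 K) (d : Matrix A2 A2 K) :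
    Matrix (A3 ⊕ A3) (A3 ⊕ A3) K :=
  Matrix.fromBlocks (Matrix.fromBlocks a 0 0 b) 0 0 (Matrix.fromBlocks c 0 0 d)

/-- The four inclusions. -/
def in1 (K : Type*) [Field K] : (A1 → K) →ₗ[K] (A3 ⊕ A3 → K) := (UN.W.i1 K A3).comp (j1 K)
/-- The four inclusions. -/
def in2 (K : Type*) [Field K] : (A2 → K) →ₗ[K] (A3 ⊕ A3 → K) := (UN.W.i1 K A3).comp (j2 K)
/-- The four inclusions. -/
def in3 (K : Type*) [Field K] : (A1 → K) →ₗ[K] (A3 ⊕ A3 → K) := (UN.W.i2 K A3).comp (j1 K)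
/-- The four inclusions. -/
def in4 (K : Type*) [Field K] : (A2 → K) →ₗ[K] (A3 ⊕ A3 → K) := (UN.W.i2 K A3).comp (j2 K)

lemma in1_inj : Function.Injective (in1 K) := UN.W.i1_inj.comp j1_inj
lemma in2_inj : Function.Injective (in2 K) := UN.W.i1_inj.comp j2_inj
lemma in3_inj : Function.Injective (in3 K) := UN.W.i2_inj.comp j1_inj
lemma in4_inj : Function.Injective (in4 K) := UN.W.i2_inj.comp j2_inj

section Q
variable (a : Matrix A1 A1 K) (b : Matrix A2 A2 K) (c : Matrix A1 A1 K) (d : Matrix A2 A2 K)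

lemma Q_in1 (v : A1 → K) : (Q a b c d).mulVec (in1 K v) = in1 K (a.mulVec v) := by
  change (Q a b c d).mulVec (UN.W.i1 K A3 (j1 K v)) = UN.W.i1 K A3 (j1 K (a.mulVec v))
  rw [Q, UN.W.blk_i1, blk_j1]
lemma Q_in2 (v : A2 → K) : (Q a b c d).mulVec (in2 K v) = in2 K (b.mulVec v) := by
  change (Q a b c d).mulVec (UN.W.i1 K A3 (j2 K v)) = UN.W.i1 K A3 (j2 K (b.mulVec v))
  rw [Q, UN.W.blk_i1, blk_j2]
lemma Q_in3 (v : A1 → K) : (Q a b c d).mulVec (in3 K v) = in3 K (c.mulVec v) := by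
  change (Q a b c d).mulVec (UN.W.i2 K A3 (j1 K v)) = UN.W.i2 K A3 (j1 K (c.mulVec v))
  rw [Q, UN.W.blk_i2, blk_j1]
lemma Q_in4 (v : A2 → K) : (Q a b c d).mulVec (in4 K v) = in4 K (d.mulVec v) := by
  change (Q a b c d).mulVec (UN.W.i2 K A3 (j2 K v)) = UN.W.i2 K A3 (j2 K (d.mulVec v))
  rw [Q, UN.W.blk_i2, blk_j2]
end Q

lemma Q_mul (a b c d a' b' c' d') : Q (K := K) a b c d * Q a' b' c' d' =
    Q (a * a') (b * b') (c * c') (d * d') := by
  unfold Q
  rw [Matrix.fromBlocks_multiply, Matrix.fromBlocks_multiply, Matrix.fromBlocks_multiply]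
  simp

lemma Q_add (a b c d a' b' c' d') : Q (K := K) a b c d + Q a' b' c' d' =
    Q (a + a') (b + b') (c + c') (d + d') := by
  unfold Q
  rw [Matrix.fromBlocks_add, Matrix.fromBlocks_add, Matrix.fromBlocks_add]
  simp

lemma Q_one : Q (K := K) 1 1 1 1 = 1 := by
  unfold Q
  rw [Matrix.fromBlocks_one, Matrix.fromBlocks_one]

lemma Q_smul (x : K) (a b c d) : x • Q (K := K) a b c d = Q (x • a) (x • b) (x • c) (x • d) := by
  unfold Q
  rw [Matrix.fromBlocks_smul, Matrix.fromBlocks_smul, Matrix.fromBlocks_smul]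
  simp

lemma Q_ext {a b c d a' b' c' d'} (h1 : a = a') (h2 : b = b') (h3 : c = c') (h4 : d = d') :
    Q (K := K) a b c d = Q a' b' c' d' := by
  rw [h1, h2, h3, h4]

/-- The values on the vectors. -/
lemma Q_eq1 (v : A3 ⊕ A3 → K) : (Q 1 0 0 0).mulVec v = in1 K (fun i => v (Sum.inl (Sum.inl i))) := by
  unfold Q
  change _ = UN.W.i1 K A3 (j1 K _)
  rw [UN.W.i1_apply, j1_apply, Matrix.fromBlocks_mulVec, Matrix.fromBlocks_mulVec]
  ext ((i | i) | (i | i)) <;> simp [Function.comp_def]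
lemma Q_eq2 (v : A3 ⊕ A3 → K) : (Q 0 1 0 0).mulVec v = in2 K (fun i => v (Sum.inl (Sum.inr i))) := by
  unfold Q
  change _ = UN.W.i1 K A3 (j2 K _)
  rw [UN.W.i1_apply, j2_apply, Matrix.fromBlocks_mulVec, Matrix.fromBlocks_mulVec]
  ext ((i | i) | (i | i)) <;> simp [Function.comp_def]
lemma Q_eq3 (v : A3 ⊕ A3 → K) : (Q 0 0 1 0).mulVec v = in3 K (fun i => v (Sum.inr (Sum.inl i))) := by
  unfold Q
  change _ = UN.W.i2 K A3 (j1 K _)
  rw [UN.W.i2_apply, j1_apply, Matrix.fromBlocks_mulVec]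
  ext ((i | i) | (i | i)) <;> simp [Function.comp_def, Matrix.fromBlocks_mulVec]
lemma Q_eq4 (v : A3 ⊕ A3 → K) : (Q 0 0 0 1).mulVec v = in4 K (fun i => v (Sum.inr (Sum.inr i))) := by
  unfold Q
  change _ = UN.W.i2 K A3 (j2 K _)
  rw [UN.W.i2_apply, j2_apply, Matrix.fromBlocks_mulVec]
  ext ((i | i) | (i | i)) <;> simp [Function.comp_def, Matrix.fromBlocks_mulVec]

/-- The four projections. -/
def E (K : Type*) [Field K] : Fin 4 → Matrix (A3 ⊕ A3) (A3 ⊕ A3) K :=
  ![Q 1 0 0 0, Q 0 1 0 0, Q 0 0 1 0, Q 0 0 0 1]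

/-- The four summands. -/
def S (K : Type*) [Field K] : Fin 4 → Submodule K (A3 ⊕ A3 → K) :=
  ![LinearMap.range (in1 K), LinearMap.range (in2 K), LinearMap.range (in3 K),
    LinearMap.range (in4 K)]

lemma N_com (x y : K) (i j : Fin 4) :
    N K i j * Matrix.fromBlocks (x • 1) 0 0 (y • 1) =
      Matrix.fromBlocks (x • 1) 0 0 (y • 1) * N K i j := by
  rw [N, Matrix.fromBlocks_multiply, Matrix.fromBlocks_multiply]
  simp

lemma N_com' (x y : K) (i j : Fin 4) :
    (N K i j).transpose * Matrix.fromBlocks (x • 1) 0 0 (y • 1) =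
      Matrix.fromBlocks (x • 1) 0 0 (y • 1) * (N K i j).transpose := by
  rw [N, Matrix.fromBlocks_transpose, Matrix.fromBlocks_multiply, Matrix.fromBlocks_multiply]
  simp

lemma Q_com (x y z w : K) : ∀ g ∈ GN (N K), (g : Matrix (A3 ⊕ A3) (A3 ⊕ A3) K) *
    Q (x • 1) (y • 1) (z • 1) (w • 1) = Q (x • 1) (y • 1) (z • 1) (w • 1) *
      (g : Matrix (A3 ⊕ A3) (A3 ⊕ A3) K) :=
  GN_com rel (N_com x y) (N_com' z w)

lemma E_com : ∀ j, ∀ g ∈ GN (N K), (g : Matrix (A3 ⊕ A3) (A3 ⊕ A3) K) * E K j =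
    E K j * (g : Matrix (A3 ⊕ A3) (A3 ⊕ A3) K) := by
  intro j g hg
  fin_cases j
  · have := Q_com (1 : K) 0 0 0 g hg
    rwa [one_smul, zero_smul, zero_smul] at this
  · have := Q_com (0 : K) 1 0 0 g hg
    rwa [one_smul, zero_smul, zero_smul] at this
  · have := Q_com (0 : K) 0 1 0 g hg
    rwa [one_smul, zero_smul, zero_smul] at this
  · have := Q_com (0 : K) 0 0 1 g hg
    rwa [one_smul, zero_smul, zero_smul] at this

lemma mem_S (j : Fin 4) (v : A3 ⊕ A3 → K) : v ∈ S K j ↔ (E K j).mulVec v = v := by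
  fin_cases j
  · constructor
    · rintro ⟨w, rfl⟩
      change (Q 1 0 0 0).mulVec _ = _
      rw [Q_in1, Matrix.one_mulVec]
    · intro h
      exact ⟨_, (Q_eq1 v).symm.trans h⟩
  · constructor
    · rintro ⟨w, rfl⟩
      change (Q 0 1 0 0).mulVec _ = _
      rw [Q_in2, Matrix.one_mulVec]
    · intro h
      exact ⟨_, (Q_eq2 v).symm.trans h⟩
  · constructor
    · rintro ⟨w, rfl⟩
      change (Q 0 0 1 0).mulVec _ = _
      rw [Q_in3, Matrix.one_mulVec]
    · intro h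
      exact ⟨_, (Q_eq3 v).symm.trans h⟩
  · constructor
    · rintro ⟨w, rfl⟩
      change (Q 0 0 0 1).mulVec _ = _
      rw [Q_in4, Matrix.one_mulVec]
    · intro h
      exact ⟨_, (Q_eq4 v).symm.trans h⟩

lemma S_sub (j : Fin 4) : IsSub (GN (N K)) (S K j) := by
  intro g hg v hv
  rw [mem_S] at hv ⊢
  rw [Matrix.mulVec_mulVec, ← E_com j g hg, ← Matrix.mulVec_mulVec, hv]

lemma D_eq (k : Fin 4) : UN.W.D (N K k k) = Q (M K 1 k k) (M K 2 k k)
    (1 - (M K 1 k k).transpose) (1 - (M K 2 k k).transpose) := by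
  unfold UN.W.D Q N
  rw [Matrix.fromBlocks_transpose, ← Matrix.fromBlocks_one, sub_eq_add_neg (Matrix.fromBlocks _ _ _ _),
    Matrix.fromBlocks_neg, Matrix.fromBlocks_add]
  simp [sub_eq_add_neg]

lemma D_eq2 (k l : Fin 4) : UN.W.D (N K k k + N K k l) = Q (M K 1 k k + M K 1 k l)
    (M K 2 k k + M K 2 k l) (1 - (M K 1 k k + M K 1 k l).transpose)
    (1 - (M K 2 k k + M K 2 k l).transpose) := by
  unfold UN.W.D Q N
  rw [Matrix.fromBlocks_add, Matrix.fromBlocks_transpose, ← Matrix.fromBlocks_one,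
    sub_eq_add_neg (Matrix.fromBlocks _ _ _ _), Matrix.fromBlocks_neg, Matrix.fromBlocks_add]
  simp [sub_eq_add_neg]

instance : Nonempty A1 := ⟨⟨{0}, rfl⟩⟩
instance : Nonempty A2 := ⟨⟨{0, 1}, rfl⟩⟩

/-- The dual idempotents. -/
def Lamd (K : Type*) [Field K] (k : ℕ) : Set (Matrix (Ix (Fin 4) k) (Ix (Fin 4) k) K) :=
  {b | ∃ a ∈ Lam K (Fin 4) k, b = 1 - a.transpose}

lemma irr_Lamd {k : ℕ} (U : Submodule K (Ix (Fin 4) k → K))
    (hU : ∀ a ∈ Lamd K k, ∀ v ∈ U, a.mulVec v ∈ U) : U = ⊥ ∨ U = ⊤ := by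
  apply irr_dual (Λ := Lam K (Fin 4) k) (fun U hU => irr hU)
  intro a ha v hv
  have h1 := hU _ ⟨a, ha, rfl⟩ v hv
  rw [Matrix.sub_mulVec, Matrix.one_mulVec] at h1
  have h2 := U.sub_mem hv h1
  rwa [sub_sub_cancel] at h2

lemma S_irr [CharZero K] (j : Fin 4) : IsIrrSub (GN (N K)) (S K j) := by
  fin_cases j
  · refine irr_inc in1_inj (S_sub 0) (Λ := Lam K (Fin 4) 1) ?_ (fun U hU => irr hU)
    rintro a (⟨i, rfl⟩ | ⟨i, j, hij, rfl⟩)
    · exact ⟨_, GN_coch rel (Or.inl ⟨i, rfl⟩), fun v => by rw [D_eq, Q_in1]⟩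
    · exact ⟨_, GN_coch rel (Or.inr ⟨i, j, hij, rfl⟩), fun v => by rw [D_eq2, Q_in1]⟩
  · refine irr_inc in2_inj (S_sub 1) (Λ := Lam K (Fin 4) 2) ?_ (fun U hU => irr hU)
    rintro a (⟨i, rfl⟩ | ⟨i, j, hij, rfl⟩)
    · exact ⟨_, GN_coch rel (Or.inl ⟨i, rfl⟩), fun v => by rw [D_eq, Q_in2]⟩
    · exact ⟨_, GN_coch rel (Or.inr ⟨i, j, hij, rfl⟩), fun v => by rw [D_eq2, Q_in2]⟩
  · refine irr_inc in3_inj (S_sub 2) (Λ := Lamd K 1) ?_ irr_Lamd
    rintro _ ⟨a, (⟨i, rfl⟩ | ⟨i, j, hij, rfl⟩), rfl⟩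
    · exact ⟨_, GN_coch rel (Or.inl ⟨i, rfl⟩), fun v => by rw [D_eq, Q_in3]⟩
    · exact ⟨_, GN_coch rel (Or.inr ⟨i, j, hij, rfl⟩), fun v => by rw [D_eq2, Q_in3]⟩
  · refine irr_inc in4_inj (S_sub 3) (Λ := Lamd K 2) ?_ irr_Lamd
    rintro _ ⟨a, (⟨i, rfl⟩ | ⟨i, j, hij, rfl⟩), rfl⟩
    · exact ⟨_, GN_coch rel (Or.inl ⟨i, rfl⟩), fun v => by rw [D_eq, Q_in4]⟩
    · exact ⟨_, GN_coch rel (Or.inr ⟨i, j, hij, rfl⟩), fun v => by rw [D_eq2, Q_in4]⟩

lemma dec [CharZero K] : Dec (GN (N K)) (E K) (S K) := by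
  refine ⟨?_, E_com, ?_, S_irr⟩
  · rw [Fin.sum_univ_four]
    change Q 1 0 0 0 + Q 0 1 0 0 + Q 0 0 1 0 + Q 0 0 0 1 = 1
    rw [Q_add, Q_add, Q_add, ← Q_one]
    simp
  · intro j v
    fin_cases j
    · exact ⟨_, (Q_eq1 v).symm⟩
    · exact ⟨_, (Q_eq2 v).symm⟩
    · exact ⟨_, (Q_eq3 v).symm⟩
    · exact ⟨_, (Q_eq4 v).symm⟩

/-! ### Ranks -/

lemma rk1 (k : ℕ) (hk : 1 ≤ k) : (M K k (0 : Fin 4) 0).rank = (3).choose (k - 1) := by
  have := UN.W.rank_in (K := K) (k := k) (0 : Fin 4) hk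
  simpa using this

lemma rk2 (k : ℕ) : (1 - (M K k (0 : Fin 4) 0).transpose).rank = (3).choose k := by
  have := UN.W.rank_notin (K := K) (k := k) (0 : Fin 4)
  simpa using this

lemma rk3 (k : ℕ) (hk : 1 ≤ k) : (M K k (0 : Fin 4) 1).rank = (2).choose (k - 1) := by
  have := rank_M (K := K) (k := k) (show (0 : Fin 4) ≠ 1 by decide) hk
  rw [← LinearMap.range_eq_map] at this
  exact this

lemma rk4 (k : ℕ) (hk : 1 ≤ k) : (-(M K k (0 : Fin 4) 1).transpose).rank =
    (2).choose (k - 1) := by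
  have e : -(M K k (0 : Fin 4) 1).transpose = (-1 : K) • (M K k (0 : Fin 4) 1).transpose := by
    rw [neg_one_smul]
  rw [e, Matrix.rank_smul_of_mem_nonZeroDivisors, Matrix.rank_transpose, rk3 k hk]
  exact mem_nonZeroDivisors_of_ne_zero (by norm_num)

lemma DL_eq : Matrix.fromBlocks (N K 0 1) 0 0 (-(N K 0 1).transpose) =
    Q (M K 1 0 1) (M K 2 0 1) (-(M K 1 0 1).transpose) (-(M K 2 0 1).transpose) := by
  unfold Q N
  rw [Matrix.fromBlocks_transpose, Matrix.fromBlocks_neg]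
  simp

lemma card1 : Fintype.card A1 = 4 := by decide
lemma card2 : Fintype.card A2 = 6 := by decide

/-- Dimensions and ranks of the summands. -/
lemma data (j : Fin 4) :
    (finrank K (S K j) = 6 ∧ rankOn (UN.W.D (N K 0 0)) (S K j) = 3 ∧
      finrank K ((S K j).map (Matrix.fromBlocks (N K 0 1) 0 0
        (-(N K 0 1).transpose)).mulVecLin) = 2) ∨
    (finrank K (S K j) = 4 ∧ (rankOn (UN.W.D (N K 0 0)) (S K j) = 1 ∨
      rankOn (UN.W.D (N K 0 0)) (S K j) = 3) ∧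
      finrank K ((S K j).map (Matrix.fromBlocks (N K 0 1) 0 0
        (-(N K 0 1).transpose)).mulVecLin) = 1) := by
  unfold rankOn
  rw [D_eq, DL_eq]
  fin_cases j
  · right
    refine ⟨(fr_range in1_inj).trans card1, Or.inl ?_, ?_⟩
    · rw [show S K ⟨0, by decide⟩ = LinearMap.range (in1 K) from rfl, fr_inc in1_inj (Q_in1 _ _ _ _)]
      exact rk1 1 le_rfl
    · rw [show S K ⟨0, by decide⟩ = LinearMap.range (in1 K) from rfl, fr_inc in1_inj (Q_in1 _ _ _ _)]
      exact rk3 1 le_rfl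
  · left
    refine ⟨(fr_range in2_inj).trans card2, ?_, ?_⟩
    · rw [show S K ⟨1, by decide⟩ = LinearMap.range (in2 K) from rfl, fr_inc in2_inj (Q_in2 _ _ _ _)]
      exact rk1 2 (by norm_num)
    · rw [show S K ⟨1, by decide⟩ = LinearMap.range (in2 K) from rfl, fr_inc in2_inj (Q_in2 _ _ _ _)]
      exact rk3 2 (by norm_num)
  · right
    refine ⟨(fr_range in3_inj).trans card1, Or.inr ?_, ?_⟩
    · rw [show S K ⟨2, by decide⟩ = LinearMap.range (in3 K) from rfl, fr_inc in3_inj (Q_in3 _ _ _ _)]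
      exact rk2 1
    · rw [show S K ⟨2, by decide⟩ = LinearMap.range (in3 K) from rfl, fr_inc in3_inj (Q_in3 _ _ _ _)]
      exact rk4 1 le_rfl
  · left
    refine ⟨(fr_range in4_inj).trans card2, ?_, ?_⟩
    · rw [show S K ⟨3, by decide⟩ = LinearMap.range (in4 K) from rfl, fr_inc in4_inj (Q_in4 _ _ _ _)]
      exact rk2 2
    · rw [show S K ⟨3, by decide⟩ = LinearMap.range (in4 K) from rfl, fr_inc in4_inj (Q_in4 _ _ _ _)]
      exact rk4 2 (by norm_num)

lemma data_irr [CharZero K] {W : Submodule K (A3 ⊕ A3 → K)} (hW : IsIrrSub (GN (N K)) W) :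
    (finrank K W = 6 ∧ HasSig ⊥ (GN (N K)) (UN.W.D (N K 0 0)) W 3 ∧
      BadAt ⊥ (GN (N K)) (UN.W.D (N K 0 0)) W 2) ∨
    (finrank K W = 4 ∧ HasSig ⊥ (GN (N K)) (UN.W.D (N K 0 0)) W 1 ∧
      BadAt ⊥ (GN (N K)) (UN.W.D (N K 0 0)) W 1) := by
  obtain ⟨j, h1, h2⟩ := dec.exists_iso hW
  have h01 : (0 : Fin 4) ≠ 1 := by decide
  have hc1 := GN_coch (N := N K) rel (Or.inl ⟨0, rfl⟩)
  have hE : UN.W.D (N K 0 0) * E K j = E K j * UN.W.D (N K 0 0) := by
    have := comm_cochar hc1 (T := E K j) (fun g hg => (E_com j g hg).symm)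
    exact this.symm
  have e1 := fr_transfer_one h1 h2
  have e2 : rankOn (UN.W.D (N K 0 0)) W = rankOn (UN.W.D (N K 0 0)) (S K j) :=
    fr_transfer h1 h2 (fun u hu => mem_U_of_cochar hc1 hW.sub hu) hE
  have e3 : finrank K (W.map (Matrix.fromBlocks (N K 0 1) 0 0
      (-(N K 0 1).transpose)).mulVecLin) = finrank K ((S K j).map (Matrix.fromBlocks (N K 0 1) 0 0
      (-(N K 0 1).transpose)).mulVecLin) := by
    rw [← Lun_sub rel h01]
    refine fr_transfer h1 h2 (fun u hu => ?_) ?_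
    · rw [Matrix.sub_mulVec, Matrix.one_mulVec]
      exact W.sub_mem (hW.sub _ (Lun_mem rel h01) u hu) hu
    · rw [sub_mul, mul_sub, E_com j _ (Lun_mem rel h01), one_mul, mul_one]
  rcases data (K := K) j with ⟨a, b, c⟩ | ⟨a, b, c⟩
  · left
    refine ⟨e1.trans a, hasSig ?_, badAt rel h01 (e3.trans c)⟩
    rw [e2, b, e1, a]
    rfl
  · right
    refine ⟨e1.trans a, hasSig ?_, badAt rel h01 (e3.trans c)⟩
    rw [e2, e1, a]
    rcases b with b | b
    · rw [b]; rfl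
    · rw [b]; rfl

/-! ### The group is small -/

lemma M_comm' (k : ℕ) (i j p q : Fin 4) : M K k i j * M K k p q - M K k p q * M K k i j =
    (if j = p then M K k i q else 0) - (if q = i then M K k p j else 0) := M_comm i j p q

lemma N_comm (i j p q : Fin 4) : N K i j * N K p q - N K p q * N K i j =
    (if j = p then N K i q else 0) - (if q = i then N K p j else 0) := by
  have h1 := M_comm' (K := K) 1 i j p q
  have h2 := M_comm' (K := K) 2 i j p q
  have e : N K i j * N K p q - N K p q * N K i j = Matrix.fromBlocks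
      (M K 1 i j * M K 1 p q - M K 1 p q * M K 1 i j) 0 0
      (M K 2 i j * M K 2 p q - M K 2 p q * M K 2 i j) := by
    unfold N
    rw [Matrix.fromBlocks_multiply, Matrix.fromBlocks_multiply, sub_eq_add_neg,
      Matrix.fromBlocks_neg, Matrix.fromBlocks_add]
    simp [sub_eq_add_neg]
  rw [e, h1, h2]
  unfold N
  by_cases hj : j = p <;> by_cases hq : q = i
  · simp only [if_pos hj, if_pos hq]
    rw [sub_eq_add_neg (Matrix.fromBlocks _ _ _ _), Matrix.fromBlocks_neg, Matrix.fromBlocks_add]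
    simp [sub_eq_add_neg]
  · simp only [if_pos hj, if_neg hq, sub_zero]
  · simp only [if_neg hj, if_pos hq, zero_sub]
    rw [Matrix.fromBlocks_neg]
    simp
  · simp only [if_neg hj, if_neg hq, sub_zero]
    simp

/-- The span of the operators. -/
noncomputable def gN (K : Type*) [Field K] : Submodule K (Matrix A3 A3 K) :=
  Submodule.span K (Set.range fun p : Fin 4 × Fin 4 => N K p.1 p.2)

lemma N_mem (i j : Fin 4) : N K i j ∈ gN K := Submodule.subset_span ⟨(i, j), rfl⟩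

lemma N_br (i j : Fin 4) {X : Matrix A3 A3 K} (hX : X ∈ gN K) :
    N K i j * X - X * N K i j ∈ gN K := by
  unfold gN at hX
  induction hX using Submodule.span_induction with
  | mem x hx =>
    obtain ⟨⟨p, q⟩, rfl⟩ := hx
    change N K i j * N K p q - N K p q * N K i j ∈ gN K
    rw [N_comm]
    apply Submodule.sub_mem
    · split_ifs
      · exact N_mem _ _
      · exact Submodule.zero_mem _
    · split_ifs
      · exact N_mem _ _
      · exact Submodule.zero_mem _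
  | zero => simp
  | add x y _ _ hx hy =>
    have e : N K i j * (x + y) - (x + y) * N K i j =
        (N K i j * x - x * N K i j) + (N K i j * y - y * N K i j) := by noncomm_ring
    rw [e]; exact Submodule.add_mem _ hx hy
  | smul c x _ hx =>
    rw [mul_smul_comm, smul_mul_assoc, ← smul_sub]
    exact Submodule.smul_mem _ _ hx

/-- The span of the operators, in the first block. -/
noncomputable def gN2 (K : Type*) [Field K] : Submodule K (Matrix (A3 ⊕ A3) (A3 ⊕ A3) K) where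
  carrier := {Y | ∃ X ∈ gN K, Y = Matrix.fromBlocks X 0 0 0}
  add_mem' := by
    rintro _ _ ⟨X, hX, rfl⟩ ⟨X', hX', rfl⟩
    refine ⟨X + X', Submodule.add_mem _ hX hX', ?_⟩
    rw [Matrix.fromBlocks_add]
    simp
  zero_mem' := ⟨0, Submodule.zero_mem _, by simp⟩
  smul_mem' := by
    rintro c _ ⟨X, hX, rfl⟩
    refine ⟨c • X, Submodule.smul_mem _ _ hX, ?_⟩
    rw [Matrix.fromBlocks_smul]
    simp

lemma G_nor [CharZero K] : GN (N K) ≤ Nor (gN2 K) := by
  apply GenG_le (Nor_closed _)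
  rintro _ ⟨P, hP, rfl⟩
  apply Nor_cochar (UN.W.D_idem (LamN_idem rel P hP))
  rintro _ ⟨X, hX, rfl⟩
  refine ⟨P * X - X * P, ?_, ?_⟩
  · rcases hP with ⟨i, rfl⟩ | ⟨i, j, hij, rfl⟩
    · exact N_br i i hX
    · have e : (N K i i + N K i j) * X - X * (N K i i + N K i j) =
          (N K i i * X - X * N K i i) + (N K i j * X - X * N K i j) := by noncomm_ring
      rw [e]
      exact Submodule.add_mem _ (N_br i i hX) (N_br i j hX)
  · rw [UN.W.D, Matrix.fromBlocks_multiply, Matrix.fromBlocks_multiply, sub_eq_add_neg,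
      Matrix.fromBlocks_neg, Matrix.fromBlocks_add]
    simp [sub_eq_add_neg]

/-! ### The element outside the group -/

/-- The square zero operator. -/
noncomputable def n0 (K : Type*) [Field K] : Matrix A3 A3 K := Matrix.fromBlocks (M K 1 0 1) 0 0 0

lemma h01 : (0 : Fin 4) ≠ 1 := by decide

lemma n0_sq : n0 K * n0 K = 0 := by
  unfold n0
  rw [Matrix.fromBlocks_multiply, M_sq h01]
  simp

/-- The element. -/
noncomputable def g0 (K : Type*) [Field K] : Matrix.GeneralLinearGroup A3 K where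
  val := 1 + n0 K
  inv := 1 - n0 K
  val_inv := by
    have : (1 + n0 K) * (1 - n0 K) = 1 - n0 K * n0 K := by noncomm_ring
    rw [this, n0_sq, sub_zero]
  inv_val := by
    have : (1 - n0 K) * (1 + n0 K) = 1 - n0 K * n0 K := by noncomm_ring
    rw [this, n0_sq, sub_zero]

lemma g0_sub : (UN.W.L (g0 K)).val - 1 = Q (M K 1 0 1) 0 (-(M K 1 0 1).transpose) 0 := by
  have e1 : (g0 K).val = 1 + n0 K := rfl
  have e2 : ((g0 K)⁻¹).val = 1 - n0 K := rfl
  rw [UN.W.L_val, e1, e2, sub_eq_iff_eq_add, ← Q_one, Q_add]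
  unfold Q n0
  congr 1
  · rw [← Matrix.fromBlocks_one, Matrix.fromBlocks_add]
    congr 1
    · abel
    · simp
    · simp
    · simp
  · rw [Matrix.transpose_sub, Matrix.transpose_one, Matrix.fromBlocks_transpose, sub_eq_add_neg,
      Matrix.fromBlocks_neg, ← Matrix.fromBlocks_one, Matrix.fromBlocks_add]
    congr 1
    · abel
    · simp
    · simp
    · simp

lemma g0_iso : (UN.W.L (g0 K)).val.transpose * UN.W.Jd K A3 * (UN.W.L (g0 K)).val =
    UN.W.Jd K A3 := by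
  have h1 : ((g0 K)⁻¹).val * (g0 K).val = 1 := by
    rw [← Units.val_mul, inv_mul_cancel, Units.val_one]
  rw [UN.W.L_val, UN.W.Jd, Matrix.fromBlocks_transpose, Matrix.fromBlocks_multiply,
    Matrix.fromBlocks_multiply]
  simp only [Matrix.transpose_zero, Matrix.mul_zero, Matrix.mul_one, zero_add, add_zero,
    Matrix.zero_mul, Matrix.transpose_transpose, mul_neg, neg_mul, ← Matrix.transpose_mul, h1,
    Matrix.transpose_one, neg_zero]

lemma g0_sq : ((UN.W.L (g0 K)).val - 1) * ((UN.W.L (g0 K)).val - 1) = 0 := by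
  rw [g0_sub, Q_mul]
  have h1 : (M K 1 (0 : Fin 4) 1).transpose * (M K 1 (0 : Fin 4) 1).transpose = 0 := by
    rw [← Matrix.transpose_mul, M_sq h01, Matrix.transpose_zero]
  rw [neg_mul_neg, h1, M_sq h01]
  unfold Q
  simp

lemma sum_M (k : ℕ) : ∑ i : Fin 4, M K k i i = (k : K) • 1 := by
  ext S T
  rw [Matrix.sum_apply]
  simp only [M_same, Matrix.diagonal_apply, Matrix.smul_apply, Matrix.one_apply]
  by_cases h : S = T
  · subst h
    simp only [if_true]
    rw [Finset.sum_ite_mem, Finset.univ_inter, Finset.sum_const, S.2]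
    simp
  · simp [h]

lemma g0_comm [CharZero K] {T : Matrix (A3 ⊕ A3) (A3 ⊕ A3) K}
    (hT : ∀ h ∈ GN (N K), T * (h : Matrix (A3 ⊕ A3) (A3 ⊕ A3) K) =
      (h : Matrix (A3 ⊕ A3) (A3 ⊕ A3) K) * T) :
    T * (UN.W.L (g0 K)).val = (UN.W.L (g0 K)).val * T := by
  have h1 : ∀ i, T * UN.W.D (N K i i) = UN.W.D (N K i i) * T := fun i =>
    comm_cochar (GN_coch rel (Or.inl ⟨i, rfl⟩)) hT
  have h2 : T * UN.W.D (N K 0 0 + N K 0 1) = UN.W.D (N K 0 0 + N K 0 1) * T :=
    comm_cochar (GN_coch rel (Or.inr ⟨0, 1, h01, rfl⟩)) hT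
  have hZ : T * (∑ i, UN.W.D (N K i i)) = (∑ i, UN.W.D (N K i i)) * T := by
    rw [Finset.mul_sum, Finset.sum_mul]
    exact Finset.sum_congr rfl fun i _ => h1 i
  have eZ : ∑ i, UN.W.D (N K i i) = Q 1 ((2 : K) • 1) ((3 : K) • 1) ((2 : K) • 1) := by
    have e1 := sum_M (K := K) 1
    have e2 := sum_M (K := K) 2
    rw [Fin.sum_univ_four] at e1 e2
    rw [Fin.sum_univ_four, D_eq, D_eq, D_eq, D_eq, Q_add, Q_add, Q_add, e1, e2]
    refine Q_ext ?_ ?_ ?_ ?_
    · simp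
    · simp
    · calc _ = (4 : K) • (1 : Matrix A1 A1 K) - (M K 1 (0 : Fin 4) 0 + M K 1 1 1 + M K 1 2 2 +
            M K 1 3 3).transpose := by
            rw [Matrix.transpose_add, Matrix.transpose_add, Matrix.transpose_add]
            module
        _ = _ := by
            rw [e1, Matrix.transpose_smul, Matrix.transpose_one]
            push_cast
            module
    · calc _ = (4 : K) • (1 : Matrix A2 A2 K) - (M K 2 (0 : Fin 4) 0 + M K 2 1 1 + M K 2 2 2 +
            M K 2 3 3).transpose := by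
            rw [Matrix.transpose_add, Matrix.transpose_add, Matrix.transpose_add]
            module
        _ = _ := by
            rw [e2, Matrix.transpose_smul, Matrix.transpose_one]
            push_cast
            module
  have e3 : (UN.W.L (g0 K)).val = 1 +
      ((∑ i, UN.W.D (N K i i)) - (2 : K) • 1) * ((∑ i, UN.W.D (N K i i)) - (2 : K) • 1) *
      (UN.W.D (N K 0 0 + N K 0 1) - UN.W.D (N K 0 0)) := by
    have e4 : (∑ i, UN.W.D (N K i i)) - (2 : K) • 1 = Q (-1) 0 1 0 := by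
      rw [eZ, sub_eq_iff_eq_add, ← Q_one, Q_smul, Q_add]
      refine Q_ext ?_ ?_ ?_ ?_
      · module
      · module
      · module
      · module
    have e5 : UN.W.D (N K 0 0 + N K 0 1) - UN.W.D (N K 0 0) =
        Q (M K 1 0 1) (M K 2 0 1) (-(M K 1 0 1).transpose) (-(M K 2 0 1).transpose) := by
      rw [D_eq, D_eq2, sub_eq_iff_eq_add, Q_add]
      refine Q_ext ?_ ?_ ?_ ?_
      · abel
      · abel
      · rw [Matrix.transpose_add]; abel
      · rw [Matrix.transpose_add]; abel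
    rw [e4, e5, Q_mul, Q_mul, ← sub_eq_iff_eq_add', g0_sub]
    refine Q_ext ?_ ?_ ?_ ?_ <;> simp
  have h3 : T * ((∑ i, UN.W.D (N K i i)) - (2 : K) • 1) =
      ((∑ i, UN.W.D (N K i i)) - (2 : K) • 1) * T := by
    rw [mul_sub, sub_mul, hZ, mul_smul_comm, smul_mul_assoc, mul_one, one_mul]
  have h4 : T * (UN.W.D (N K 0 0 + N K 0 1) - UN.W.D (N K 0 0)) =
      (UN.W.D (N K 0 0 + N K 0 1) - UN.W.D (N K 0 0)) * T := by
    rw [mul_sub, sub_mul, h1 0, h2]
  rw [e3, mul_add, add_mul, mul_one, one_mul]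
  congr 1
  rw [← mul_assoc, ← mul_assoc, h3, mul_assoc _ T, h3, ← mul_assoc, mul_assoc _ T, h4,
    ← mul_assoc]

/-- Two related entries. -/
def s1 : A1 := ⟨{0}, rfl⟩
def t1 : A1 := ⟨{1}, rfl⟩
def s2 : A2 := ⟨{0, 2}, rfl⟩
def t2 : A2 := ⟨{1, 2}, rfl⟩

lemma M_entry1 (p q : Fin 4) (h : ¬ (p = 0 ∧ q = 1)) : M K 1 p q s1 t1 = 0 := by
  rw [M_apply, if_neg]
  revert p q
  decide

lemma M_entry2 (p q : Fin 4) (h : ¬ (p = 0 ∧ q = 1)) : M K 2 p q s2 t2 = 0 := by
  rw [M_apply, if_neg]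
  revert p q
  decide

lemma M_entry3 : M K 1 0 1 s1 t1 ≠ 0 := by
  rw [M_apply, if_pos (by decide)]
  exact mul_ne_zero (sg_ne _ _) (sg_ne _ _)

lemma M_entry4 : M K 2 0 1 s2 t2 ≠ 0 := by
  rw [M_apply, if_pos (by decide)]
  exact mul_ne_zero (sg_ne _ _) (sg_ne _ _)

lemma gN_entry {X : Matrix A3 A3 K} (hX : X ∈ gN K) :
    X (Sum.inl s1) (Sum.inl t1) * M K 2 0 1 s2 t2 =
      X (Sum.inr s2) (Sum.inr t2) * M K 1 0 1 s1 t1 := by
  unfold gN at hX
  induction hX using Submodule.span_induction with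
  | mem x hx =>
    obtain ⟨⟨p, q⟩, rfl⟩ := hx
    change M K 1 p q s1 t1 * _ = M K 2 p q s2 t2 * _
    by_cases h : p = 0 ∧ q = 1
    · obtain ⟨rfl, rfl⟩ := h
      exact mul_comm _ _
    · rw [M_entry1 p q h, M_entry2 p q h, zero_mul, zero_mul]
  | zero => simp
  | add x y _ _ hx hy => rw [Matrix.add_apply, Matrix.add_apply, add_mul, add_mul, hx, hy]
  | smul c x _ hx =>
    rw [Matrix.smul_apply, Matrix.smul_apply, smul_eq_mul, smul_eq_mul, mul_assoc, mul_assoc, hx]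

lemma g0_not_mem [CharZero K] : UN.W.L (g0 K) ∉ GN (N K) := by
  intro hmem
  obtain ⟨X, hX, hXe⟩ := (G_nor hmem _ ⟨N K 1 0, N_mem 1 0, rfl⟩).1
  have h2 : (1 + n0 K) * N K 1 0 * (1 - n0 K) = X := by
    have h3 : ((UN.W.L (g0 K))⁻¹).val =
        Matrix.fromBlocks ((g0 K)⁻¹).val 0 0 (g0 K).val.transpose := rfl
    have hg1 : (g0 K).val = 1 + n0 K := rfl
    have hg2 : ((g0 K)⁻¹).val = 1 - n0 K := rfl
    rw [UN.W.L_val, h3, Matrix.fromBlocks_multiply, Matrix.fromBlocks_multiply] at hXe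
    have h4 := (Matrix.fromBlocks_inj.mp hXe).1
    simpa [hg1, hg2] using h4
  have h5 := gN_entry hX
  have e1 : X = Matrix.fromBlocks ((1 + M K 1 0 1) * M K 1 1 0 * (1 - M K 1 0 1)) 0 0
      (M K 2 1 0) := by
    rw [← h2]
    unfold n0 N
    rw [← Matrix.fromBlocks_one, Matrix.fromBlocks_add, sub_eq_add_neg, Matrix.fromBlocks_neg,
      Matrix.fromBlocks_add, Matrix.fromBlocks_multiply, Matrix.fromBlocks_multiply]
    simp [sub_eq_add_neg]
  have h9 : M K 1 (0 : Fin 4) 1 * M K 1 1 0 * M K 1 0 1 = M K 1 0 1 := by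
    have h6 := M_cross (K := K) (k := 1) (i := (0 : Fin 4)) (j := 1)
    have : M K 1 (0 : Fin 4) 1 * M K 1 1 0 * M K 1 0 1 - M K 1 1 0 * (M K 1 0 1 * M K 1 0 1) =
        (M K 1 0 0 - M K 1 1 1) * M K 1 0 1 := by
      rw [← h6]; noncomm_ring
    rw [M_sq h01, mul_zero, sub_zero, sub_mul, M_diag_mul, M_same_mul h01, sub_zero] at this
    exact this
  have e2 : (1 + M K 1 (0 : Fin 4) 1) * M K 1 1 0 * (1 - M K 1 0 1) =
      M K 1 1 0 + (M K 1 0 0 - M K 1 1 1) - M K 1 0 1 := by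
    have h6 := M_cross (K := K) (k := 1) (i := (0 : Fin 4)) (j := 1)
    have : (1 + M K 1 (0 : Fin 4) 1) * M K 1 1 0 * (1 - M K 1 0 1) =
        M K 1 1 0 + (M K 1 0 1 * M K 1 1 0 - M K 1 1 0 * M K 1 0 1) -
          M K 1 0 1 * M K 1 1 0 * M K 1 0 1 := by noncomm_ring
    rw [this, h6, h9]
  rw [e1, Matrix.fromBlocks_apply₁₁, Matrix.fromBlocks_apply₂₂, e2,
    M_entry2 1 0 (by decide), zero_mul, Matrix.sub_apply, Matrix.add_apply, Matrix.sub_apply,
    M_entry1 1 0 (by decide), M_entry1 0 0 (by decide), M_entry1 1 1 (by decide)] at h5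
  have h6 : M K 1 (0 : Fin 4) 1 s1 t1 * M K 2 0 1 s2 t2 = 0 := by linear_combination -h5
  exact mul_ne_zero M_entry3 M_entry4 h6

end AV.SH4

namespace AV

open MTPairs AV.SM AV.SH4

/-- SH4: the special linear group of rank four. -/
theorem ex_four (K : Type*) [Field K] [IsAlgClosed K] [CharZero K] :
    ∃ (m : Type) (_ : Fintype m) (_ : DecidableEq m) (J : Matrix m m K)
      (G : Subgroup (Matrix.GeneralLinearGroup m K)) (π : Matrix m m K),
      IsStrongMTPair ⊥ J G π ∧ IsReductiveRep G ∧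
      (∀ W, IsIrrSub G W → (finrank K W = 6 ∧ HasSig ⊥ G π W 3 ∧ BadAt ⊥ G π W 2) ∨
        (finrank K W = 4 ∧ HasSig ⊥ G π W 1 ∧ BadAt ⊥ G π W 1)) ∧
      ¬ ContainsDer J G := by
  refine ⟨A3 ⊕ A3, inferInstance, inferInstance, UN.W.Jd K A3, GN (N K), UN.W.D (N K 0 0),
    strong rel 0, dec.red, fun W hW => data_irr hW, fun h => ?_⟩
  exact g0_not_mem (h _ g0_iso (fun T hT => g0_comm hT)
    (fun W _ hst => det_restrict g0_sq hst))

end AV
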