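import Pool.Agent.Helper2.AV.Defs
import Pool.Agent.Helper4.UN.Wa

/-!
Sharpness examples for the group theorem: a general machine.

Part 1: stable decompositions of the standard representation.
Part 2: families of operators with the relations of the matrix units, doubled.
-/

open Module MTPairs

namespace AV.SM

/-! ### Stable decompositions -/

section dec
variable {K : Type*} [Field K] {m : Type*} [Fintype m] [DecidableEq m]

/-- The idempotents `E j` commute with `G`, their sum is one, and the image of `E j` is the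
irreducible subspace `S j`. -/
structure Dec (G : Subgroup (Matrix.GeneralLinearGroup m K)) {J : Type*} [Fintype J]
    (E : J → Matrix m m K) (S : J → Submodule K (m → K)) : Prop where
  sum : ∑ j, E j = 1
  com : ∀ j, ∀ g ∈ G, (g : Matrix m m K) * E j = E j * (g : Matrix m m K)
  mem : ∀ j v, (E j).mulVec v ∈ S j
  irr : ∀ j, IsIrrSub G (S j)

variable {G : Subgroup (Matrix.GeneralLinearGroup m K)} {J : Type*} [Fintype J]
  {E : J → Matrix m m K} {S : J → Submodule K (m → K)}

lemma Dec.eq_sum (D : Dec G E S) (v : m → K) : v = ∑ j, (E j).mulVec v := by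
  rw [← Matrix.sum_mulVec, D.sum, Matrix.one_mulVec]

omit [DecidableEq m] in
lemma isSub_inf [DecidableEq m] {G : Subgroup (Matrix.GeneralLinearGroup m K)}
    {U U' : Submodule K (m → K)} (h : IsSub G U) (h' : IsSub G U') : IsSub G (U ⊓ U') :=
  fun g hg v hv => ⟨h g hg v hv.1, h' g hg v hv.2⟩

lemma isSub_sup {U U' : Submodule K (m → K)} (h : IsSub G U) (h' : IsSub G U') :
    IsSub G (U ⊔ U') := by
  intro g hg v hv
  obtain ⟨a, ha, b, hb, rfl⟩ := Submodule.mem_sup.mp hv
  rw [Matrix.mulVec_add]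
  exact Submodule.add_mem_sup (h g hg a ha) (h' g hg b hb)

/-- The representation is semisimple. -/
theorem Dec.red (D : Dec G E S) : IsReductiveRep G := by
  classical
  intro U hU
  have hb : ∃ n, ∃ U', IsSub G U' ∧ Disjoint U U' ∧ finrank K (m → K) - finrank K U' = n :=
    ⟨_, ⊥, fun g _ v hv => by
      rw [Submodule.mem_bot] at hv ⊢; rw [hv, Matrix.mulVec_zero], disjoint_bot_right, rfl⟩
  obtain ⟨U', h1, h2, h3⟩ := Nat.find_spec hb
  have hmin : ∀ U'', IsSub G U'' → Disjoint U U'' →
      finrank K (m → K) - finrank K U' ≤ finrank K (m → K) - finrank K U'' := by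
    intro U'' a b
    rw [h3]
    exact Nat.find_min' hb ⟨U'', a, b, rfl⟩
  refine ⟨U', h1, h2, ?_⟩
  rw [codisjoint_iff, eq_top_iff]
  intro v _
  rw [D.eq_sum v]
  refine Submodule.sum_mem _ fun j _ => ?_
  suffices hS : S j ≤ U ⊔ U' from hS (D.mem j v)
  by_contra hS
  have hst : IsSub G (S j ⊓ (U ⊔ U')) := isSub_inf (D.irr j).sub (isSub_sup hU h1)
  rcases (D.irr j).irr _ inf_le_left hst with h | h
  · have hd : Disjoint U (U' ⊔ S j) :=
      Disjoint.disjoint_sup_right_of_disjoint_sup_left h2
        (disjoint_iff.mpr (by rw [inf_comm]; exact h))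
    have hlt : U' < U' ⊔ S j := by
      refine lt_of_le_of_ne le_sup_left fun he => hS ?_
      exact le_trans (le_trans le_sup_right he.ge) le_sup_right
    have h4 := Submodule.finrank_lt_finrank_of_lt hlt
    have h5 := hmin _ (isSub_sup h1 (D.irr j).sub) hd
    have h6 : finrank K ↥(U' ⊔ S j) ≤ finrank K (m → K) := Submodule.finrank_le _
    omega
  · exact hS (inf_eq_left.mp h)

/-- Every irreducible subrepresentation projects isomorphically to a summand. -/
theorem Dec.exists_iso (D : Dec G E S) {U : Submodule K (m → K)} (hU : IsIrrSub G U) :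
    ∃ j, (∀ u ∈ U, (E j).mulVec u = 0 → u = 0) ∧ U.map (E j).mulVecLin = S j := by
  obtain ⟨u, hu, hu0⟩ := Submodule.exists_mem_ne_zero_of_ne_bot hU.ne
  have h1 : ∃ j, (E j).mulVec u ≠ 0 := by
    by_contra h
    push Not at h
    apply hu0
    rw [D.eq_sum u]
    exact Finset.sum_eq_zero fun j _ => h j
  obtain ⟨j, hj⟩ := h1
  refine ⟨j, ?_, ?_⟩
  · have hst : IsSub G (U ⊓ LinearMap.ker (E j).mulVecLin) := by
      intro g hg v hv
      refine ⟨hU.sub g hg v hv.1, ?_⟩
      have h2 : (E j).mulVec v = 0 := hv.2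
      change (E j).mulVec ((g : Matrix m m K).mulVec v) = 0
      rw [Matrix.mulVec_mulVec, ← D.com j g hg, ← Matrix.mulVec_mulVec, h2, Matrix.mulVec_zero]
    rcases hU.irr _ inf_le_left hst with h | h
    · intro w hw hw0
      have : w ∈ U ⊓ LinearMap.ker (E j).mulVecLin := ⟨hw, hw0⟩
      rw [h, Submodule.mem_bot] at this
      exact this
    · exfalso
      apply hj
      have : u ∈ U ⊓ LinearMap.ker (E j).mulVecLin := by rw [h]; exact hu
      exact this.2
  · have hle : U.map (E j).mulVecLin ≤ S j := by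
      rintro _ ⟨w, -, rfl⟩
      exact D.mem j w
    have hst : IsSub G (U.map (E j).mulVecLin) := by
      rintro g hg _ ⟨w, hw, rfl⟩
      refine ⟨(g : Matrix m m K).mulVec w, hU.sub g hg w hw, ?_⟩
      change (E j).mulVec _ = (g : Matrix m m K).mulVec ((E j).mulVec w)
      rw [Matrix.mulVec_mulVec, Matrix.mulVec_mulVec, D.com j g hg]
    rcases (D.irr j).irr _ hle hst with h | h
    · exfalso
      apply hj
      have : (E j).mulVec u ∈ U.map (E j).mulVecLin := ⟨u, hu, rfl⟩
      rw [h, Submodule.mem_bot] at this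
      exact this
    · exact h

omit [DecidableEq m] in
/-- Transfer of dimensions and ranks. -/
lemma fr_transfer {U S : Submodule K (m → K)} {E X : Matrix m m K}
    (hinj : ∀ u ∈ U, E.mulVec u = 0 → u = 0) (hmap : U.map E.mulVecLin = S)
    (hX : ∀ u ∈ U, X.mulVec u ∈ U) (hXE : X * E = E * X) :
    finrank K (U.map X.mulVecLin) = finrank K (S.map X.mulVecLin) := by
  have e1 : S.map X.mulVecLin = (U.map X.mulVecLin).map E.mulVecLin := by
    rw [← hmap, ← Submodule.map_comp, ← Submodule.map_comp, ← Matrix.mulVecLin_mul,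
      ← Matrix.mulVecLin_mul, hXE]
  have hle : U.map X.mulVecLin ≤ U := by
    rintro _ ⟨w, hw, rfl⟩
    exact hX w hw
  rw [e1]
  have hinj' : Function.Injective (E.mulVecLin.domRestrict (U.map X.mulVecLin)) := by
    rw [← LinearMap.ker_eq_bot, LinearMap.ker_eq_bot']
    intro w hw
    exact Subtype.ext (hinj w (hle w.2) hw)
  have h := LinearMap.finrank_range_of_inj hinj'
  rw [LinearMap.range_domRestrict] at h
  exact h.symm

/-- Dimension of an irreducible subrepresentation. -/
lemma fr_transfer_one {U S : Submodule K (m → K)} {E : Matrix m m K}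
    (hinj : ∀ u ∈ U, E.mulVec u = 0 → u = 0) (hmap : U.map E.mulVecLin = S) :
    finrank K U = finrank K S := by
  have h := fr_transfer (X := (1 : Matrix m m K)) hinj hmap
    (fun u hu => by rwa [Matrix.one_mulVec]) (by rw [one_mul, mul_one])
  rwa [Matrix.mulVecLin_one, Submodule.map_id, Submodule.map_id] at h

/-- A cocharacter commuting with `e` is a cocharacter of the centralizer. -/
lemma cen_cochar {e P : Matrix m m K} (h : P * P = P) (hc : P * e = e * P) :
    IsCochar (UN.W.Cen e) P := by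
  refine ⟨h, fun t ht => ?_⟩
  refine ⟨⟨t • P + (1 - P), t⁻¹ • P + (1 - P), torus_mul h ht, ?_⟩, ?_, rfl⟩
  · have := torus_mul h (inv_ne_zero ht)
    rwa [inv_inv] at this
  · change (t • P + (1 - P)) * e = e * (t • P + (1 - P))
    rw [add_mul, mul_add, sub_mul, mul_sub, smul_mul_assoc, mul_smul_comm, hc, one_mul, mul_one]

lemma mem_U_of_cochar {P : Matrix m m K} (h : IsCochar G P) [CharZero K]
    {U : Submodule K (m → K)} (hU : IsSub G U) {v : m → K} (hv : v ∈ U) : P.mulVec v ∈ U := by
  obtain ⟨g, hg, hgt⟩ := h.2 2 two_ne_zero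
  have h1 := hU g hg v hv
  have h2 : (g : Matrix m m K).mulVec v = P.mulVec v + v := by
    have e : (2 : K) • P + (1 - P) = P + 1 := by rw [two_smul]; abel
    rw [hgt, e, Matrix.add_mulVec, Matrix.one_mulVec]
  rw [h2] at h1
  have := U.sub_mem h1 hv
  rwa [add_sub_cancel_right] at this

/-- Operators commuting with `G` commute with its cocharacters. -/
lemma comm_cochar [CharZero K] {P T : Matrix m m K} (h : IsCochar G P)
    (hT : ∀ g ∈ G, T * (g : Matrix m m K) = (g : Matrix m m K) * T) : T * P = P * T := by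
  obtain ⟨g, hg, hgt⟩ := h.2 2 two_ne_zero
  have h1 := hT g hg
  have e : (2 : K) • P + (1 - P) = P + 1 := by rw [two_smul]; abel
  rw [hgt, e, mul_add, add_mul, mul_one, one_mul] at h1
  exact add_right_cancel h1

end dec

section inc
variable {K : Type*} [Field K] {m X : Type*} [Fintype m] [DecidableEq m] [Fintype X]
  {inc : (X → K) →ₗ[K] (m → K)}

/-- Ranks on a coordinate subspace. -/
lemma fr_inc (hinj : Function.Injective inc) {Y : Matrix m m K} {a : Matrix X X K}
    (h : ∀ v, Y.mulVec (inc v) = inc (a.mulVec v)) :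
    finrank K ((LinearMap.range inc).map Y.mulVecLin) = a.rank := by
  have e : (LinearMap.range inc).map Y.mulVecLin = (LinearMap.range a.mulVecLin).map inc := by
    rw [← LinearMap.range_comp, ← LinearMap.range_comp]
    congr 1
    apply LinearMap.ext
    intro v
    exact h v
  rw [e]
  exact (Submodule.equivMapOfInjective _ hinj _).finrank_eq.symm

omit [DecidableEq m] in
lemma fr_range (hinj : Function.Injective inc) :
    finrank K (LinearMap.range inc) = Fintype.card X := by
  rw [LinearMap.finrank_range_of_inj hinj, Module.finrank_fintype_fun_eq_card]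

/-- Irreducibility of a coordinate subspace. -/
lemma irr_inc [CharZero K] [Nonempty X] {G : Subgroup (Matrix.GeneralLinearGroup m K)}
    (hinj : Function.Injective inc) (hsub : IsSub G (LinearMap.range inc))
    {Λ : Set (Matrix X X K)}
    (hΛ : ∀ a ∈ Λ, ∃ P, IsCochar G P ∧ ∀ v, P.mulVec (inc v) = inc (a.mulVec v))
    (hirr : ∀ U : Submodule K (X → K), (∀ a ∈ Λ, ∀ v ∈ U, a.mulVec v ∈ U) → U = ⊥ ∨ U = ⊤) :
    IsIrrSub G (LinearMap.range inc) := by
  refine ⟨?_, hsub, ?_⟩
  · intro h
    obtain ⟨x⟩ := ‹Nonempty X›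
    classical
    have h1 : inc (Pi.single x 1) ∈ LinearMap.range inc := ⟨_, rfl⟩
    rw [h, Submodule.mem_bot] at h1
    have h2 : Pi.single x (1 : K) = 0 := hinj (by rw [h1, map_zero])
    have h3 := congrFun h2 x
    rw [Pi.single_eq_same] at h3
    exact one_ne_zero h3
  · intro U hU hst
    have h1 := hirr (U.comap inc) (by
      intro a ha v hv
      obtain ⟨P, hP, hPa⟩ := hΛ a ha
      rw [Submodule.mem_comap] at hv ⊢
      rw [← hPa v]
      exact mem_U_of_cochar hP hst hv)
    rcases h1 with h | h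
    · left
      rw [eq_bot_iff]
      intro u hu
      obtain ⟨v, rfl⟩ := hU hu
      have h2 : v ∈ U.comap inc := hu
      rw [h, Submodule.mem_bot] at h2
      rw [h2, map_zero]
      exact Submodule.zero_mem _
    · right
      apply le_antisymm hU
      rintro _ ⟨v, rfl⟩
      have h2 : v ∈ U.comap inc := by rw [h]; trivial
      exact h2

/-- Irreducibility of the dual. -/
lemma irr_dual {Λ : Set (Matrix X X K)}
    (hirr : ∀ U : Submodule K (X → K), (∀ a ∈ Λ, ∀ v ∈ U, a.mulVec v ∈ U) → U = ⊥ ∨ U = ⊤)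
    {U : Submodule K (X → K)} (hU : ∀ a ∈ Λ, ∀ v ∈ U, a.transpose.mulVec v ∈ U) :
    U = ⊥ ∨ U = ⊤ := by
  classical
  let U' : Submodule K (X → K) :=
    { carrier := {w | ∀ u ∈ U, w ⬝ᵥ u = 0}
      add_mem' := by
        intro a b ha hb u hu
        rw [add_dotProduct, ha u hu, hb u hu, add_zero]
      zero_mem' := by
        intro u _
        rw [zero_dotProduct]
      smul_mem' := by
        intro c a ha u hu
        rw [smul_dotProduct, ha u hu, smul_zero] }
  have h1 := hirr U' (by
    intro a ha v hv u hu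
    have h2 := hv _ (hU a ha u hu)
    rw [Matrix.dotProduct_mulVec, Matrix.vecMul_transpose] at h2
    exact h2)
  rcases h1 with h | h
  · right
    by_contra hne
    obtain ⟨x, hx⟩ : ∃ x, x ∉ U := by
      by_contra hc
      push Not at hc
      exact hne (eq_top_iff.mpr fun x _ => hc x)
    obtain ⟨l, hl, hl2⟩ := Submodule.exists_le_ker_of_notMem hx
    have h3 : ∀ v, l v = (fun i => l (Pi.single i 1)) ⬝ᵥ v := by
      intro v
      rw [LinearMap.pi_apply_eq_sum_univ l v]
      simp only [dotProduct, smul_eq_mul]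
      refine Finset.sum_congr rfl fun i _ => ?_
      rw [mul_comm]
      congr 2
      ext j
      simp [Pi.single_apply, eq_comm]
    have h4 : (fun i => l (Pi.single i 1)) ∈ U' := by
      intro u hu
      rw [← h3 u]
      exact hl2 hu
    rw [h, Submodule.mem_bot] at h4
    apply hl
    rw [h3 x, h4, zero_dotProduct]
  · left
    rw [eq_bot_iff]
    intro u hu
    rw [Submodule.mem_bot]
    ext i
    have h2 : Pi.single i (1 : K) ∈ U' := by rw [h]; trivial
    have h3 := h2 u hu
    rw [single_dotProduct, one_mul] at h3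
    exact h3

end inc

/-- Unipotent operators of square zero have determinant one. -/
lemma det_unip {K W : Type*} [Field K] [AddCommGroup W] [Module K W] [FiniteDimensional K W]
    {f : Module.End K W} (h : (f - 1) * (f - 1) = 0) : LinearMap.det f = 1 := by
  have hn : IsNilpotent (1 - f) := ⟨2, by
    rw [pow_two]
    have : (1 - f) * (1 - f) = (f - 1) * (f - 1) := by noncomm_ring
    rw [this, h]⟩
  have h1 : (1 - f).charpoly = Polynomial.X ^ finrank K W := by
    rw [LinearMap.charpoly_eq_X_pow_iff]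
    intro w
    obtain ⟨n, hn⟩ := hn
    exact ⟨n, by rw [hn]; rfl⟩
  have h2 := LinearMap.eval_charpoly (1 - f) 1
  rw [h1, Polynomial.eval_pow, Polynomial.eval_X, one_pow] at h2
  have e : algebraMap K (Module.End K W) 1 - (1 - f) = f := by
    rw [map_one]; abel
  rw [e] at h2
  exact h2.symm

/-- The restriction of a unipotent matrix of square zero has determinant one. -/
lemma det_restrict {K : Type*} [Field K] {m : Type*} [Fintype m] [DecidableEq m]
    {g : Matrix m m K} (hg : (g - 1) * (g - 1) = 0) {W : Submodule K (m → K)}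
    (h : ∀ v ∈ W, g.mulVecLin v ∈ W) : DetOne (g.mulVecLin.restrict h) := by
  apply det_unip
  apply LinearMap.ext
  intro w
  apply Subtype.ext
  change g.mulVec (g.mulVec w - w) - (g.mulVec w - w) = 0
  have h1 := congrArg (fun X => X.mulVec (w : m → K)) hg
  simp only [Matrix.zero_mulVec] at h1
  rw [← h1, ← Matrix.mulVec_mulVec, Matrix.sub_mulVec, Matrix.sub_mulVec, Matrix.one_mulVec,
    Matrix.one_mulVec]

/-! ### Families of operators with the relations of the matrix units -/

section rel
variable {K : Type*} [Field K] {ι n : Type*} [Fintype n] [DecidableEq n]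

/-- The relations. -/
structure Rel (N : ι → ι → Matrix n n K) : Prop where
  dm : ∀ i j, N i i * N i j = N i j
  md : ∀ i j, i ≠ j → N i j * N i i = 0
  sq : ∀ i j, i ≠ j → N i j * N i j = 0
  ms : ∀ i j, N i j * N j j = N i j
  sm : ∀ i j, i ≠ j → N j j * N i j = 0
  cr : ∀ i j, N i j * N j i - N j i * N i j = N i i - N j j

/-- The idempotents. -/
def LamN (N : ι → ι → Matrix n n K) : Set (Matrix n n K) :=
  {π | (∃ i, π = N i i) ∨ ∃ i j, i ≠ j ∧ π = N i i + N i j}

/-- The doubled idempotents. -/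
def LamD (N : ι → ι → Matrix n n K) : Set (Matrix (n ⊕ n) (n ⊕ n) K) :=
  {Q | ∃ P ∈ LamN N, Q = UN.W.D P}

variable {N : ι → ι → Matrix n n K}

lemma LamN_idem (R : Rel N) : ∀ π ∈ LamN N, π * π = π := by
  rintro π (⟨i, rfl⟩ | ⟨i, j, hij, rfl⟩)
  · exact R.dm i i
  · rw [add_mul, mul_add, mul_add, R.dm, R.dm, R.md i j hij, R.sq i j hij]
    simp

lemma LamD_idem (R : Rel N) : ∀ Q ∈ LamD N, Q * Q = Q := by
  rintro _ ⟨P, hP, rfl⟩
  exact UN.W.D_idem (LamN_idem R P hP)

lemma LamD_lag : ∀ Q ∈ LamD N, Q.transpose * UN.W.Jd K n + UN.W.Jd K n * Q = UN.W.Jd K n := by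
  rintro _ ⟨P, hP, rfl⟩
  exact UN.W.D_lag P

/-- The group. -/
noncomputable abbrev GN (N : ι → ι → Matrix n n K) :
    Subgroup (Matrix.GeneralLinearGroup (n ⊕ n) K) := GenG (LamD N)

lemma GN_coch (R : Rel N) {P : Matrix n n K} (hP : P ∈ LamN N) :
    IsCochar (GN N) (UN.W.D P) :=
  GenG_cochar (LamD_idem R _ ⟨P, hP, rfl⟩) ⟨P, hP, rfl⟩

/-- The root unipotents. -/
def un (R : Rel N) {i j : ι} (h : i ≠ j) : Matrix.GeneralLinearGroup n K where
  val := 1 + N i j
  inv := 1 - N i j
  val_inv := by
    have : (1 + N i j) * (1 - N i j) = 1 - N i j * N i j := by noncomm_ring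
    rw [this, R.sq i j h, sub_zero]
  inv_val := by
    have : (1 - N i j) * (1 + N i j) = 1 - N i j * N i j := by noncomm_ring
    rw [this, R.sq i j h, sub_zero]

lemma Lun_mem [CharZero K] (R : Rel N) {i j : ι} (h : i ≠ j) : UN.W.L (un R h) ∈ GN N := by
  obtain ⟨g1, hg1, hg1'⟩ := (GN_coch R (Or.inr ⟨i, j, h, rfl⟩)).2 2 two_ne_zero
  obtain ⟨g2, hg2, hg2'⟩ := (GN_coch R (Or.inl ⟨i, rfl⟩)).2 2⁻¹ (inv_ne_zero two_ne_zero)
  have e : UN.W.L (un R h) = g1 * g2 := by
    apply Units.ext
    rw [Units.val_mul, hg1', hg2', UN.W.torus_D, UN.W.torus_D, Matrix.fromBlocks_multiply,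
      UN.W.L_val]
    have h1 := R.dm i i
    have h1' := R.dm i j
    have h2 := R.md i j h
    have e1 : (un R h).val = 1 + N i j := rfl
    have e2 : ((un R h)⁻¹).val = 1 - N i j := rfl
    rw [e1, e2]
    generalize N i i = p at *
    generalize N i j = x at *
    congr 1
    · simp only [add_mul, mul_add, sub_mul, mul_sub, smul_mul_assoc, mul_smul_comm, one_mul,
        mul_one, h1, h1', h2, smul_add, smul_zero, Matrix.mul_zero, add_zero]
      match_scalars <;> norm_num
    · simp
    · simp
    · have e3 : ((2 : K) • (1 - (p + x).transpose) + (p + x).transpose) *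
          ((2⁻¹ : K) • (1 - p.transpose) + p.transpose) =
          (((2⁻¹ : K) • (1 - p) + p) * ((2 : K) • (1 - (p + x)) + (p + x))).transpose := by
        rw [Matrix.transpose_mul]
        simp only [Matrix.transpose_add, Matrix.transpose_smul, Matrix.transpose_sub,
          Matrix.transpose_one]
      rw [e3, Matrix.zero_mul, zero_add]
      congr 1
      simp only [add_mul, mul_add, sub_mul, mul_sub, smul_mul_assoc, mul_smul_comm, one_mul,
        mul_one, h1, h1', h2, smul_add, smul_zero, Matrix.mul_zero, add_zero]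
      match_scalars <;> norm_num
  rw [e]
  exact Subgroup.mul_mem _ hg1 hg2

/-- The Weyl element. -/
def we (R : Rel N) {i j : ι} (h : i ≠ j) : Matrix.GeneralLinearGroup n K :=
  un R h * (un R h.symm)⁻¹ * un R h

lemma we_conj (R : Rel N) {i j : ι} (h : i ≠ j) : (we R h : Matrix n n K) * N j j =
    N i i * (we R h : Matrix n n K) := by
  change (1 + N i j) * (1 - N j i) * (1 + N i j) * N j j =
    N i i * ((1 + N i j) * (1 - N j i) * (1 + N i j))
  have h1 : N i j * N j j = N i j := R.ms i j
  have h2 : N j i * N j j = 0 := R.md j i h.symm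
  have h3 : N i i * N i j = N i j := R.dm i j
  have h4 : N i i * N j i = 0 := R.sm j i h.symm
  have h5 := R.cr i j
  have h6 : N i j * N i j = 0 := R.sq i j h
  have h7 : N j j * N i j = 0 := R.sm i j h
  have h8 : N i j * N i i = 0 := R.md i j h
  have h9 : N i j * N j i * N i j = N i j := by
    have : N i j * N j i * N i j - N j i * (N i j * N i j) =
        (N i i - N j j) * N i j := by
      rw [← h5]; noncomm_ring
    rw [h6, mul_zero, sub_zero, sub_mul, h3, h7, sub_zero] at this
    exact this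
  generalize N i j = x at *
  generalize N j i = y at *
  generalize N i i = p at *
  generalize N j j = q at *
  have e1 : (1 + x) * (1 - y) * (1 + x) * q = q + x - y * x := by
    calc (1 + x) * (1 - y) * (1 + x) * q = q + x * q - y * q - y * (x * q) + x * q +
          x * (x * q) - x * (y * q) - x * y * (x * q) := by noncomm_ring
      _ = q + x - y * x := by
        rw [h1, h2, h6, mul_zero, h9]; abel
  have e2 : p * ((1 + x) * (1 - y) * (1 + x)) = p + x - x * y := by
    calc p * ((1 + x) * (1 - y) * (1 + x)) = p + p * x - p * y - p * y * x + p * x +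
          p * x * x - p * x * y - p * x * y * x := by noncomm_ring
      _ = p + x - x * y := by
        rw [h3, h4, h6, zero_mul, h9]; abel
  rw [e1, e2]
  have : q + x - y * x = (x * y - y * x) + q + x - x * y := by abel
  rw [this, h5]; abel

lemma Lwe_mem [CharZero K] (R : Rel N) {i j : ι} (h : i ≠ j) : UN.W.L (we R h) ∈ GN N := by
  unfold we
  rw [UN.W.L_mul, UN.W.L_mul, UN.W.L_inv]
  exact Subgroup.mul_mem _ (Subgroup.mul_mem _ (Lun_mem R h)
    (Subgroup.inv_mem _ (Lun_mem R h.symm))) (Lun_mem R h)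

/-- All the idempotents are conjugate. -/
lemma conj_all [CharZero K] (R : Rel N) (i0 : ι) {P : Matrix n n K} (hP : P ∈ LamN N) :
    ∃ g : Matrix.GeneralLinearGroup n K, UN.W.L g ∈ GN N ∧
      P = (g : Matrix n n K) * N i0 i0 *
      ((g⁻¹ : Matrix.GeneralLinearGroup n K) : Matrix n n K) := by
  have key : ∀ i, ∃ g : Matrix.GeneralLinearGroup n K, UN.W.L g ∈ GN N ∧ N i i =
      (g : Matrix n n K) * N i0 i0 *
      ((g⁻¹ : Matrix.GeneralLinearGroup n K) : Matrix n n K) := by
    intro i
    by_cases h : i = i0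
    · subst h
      exact ⟨1, by rw [UN.W.L_one]; exact Subgroup.one_mem _, by simp⟩
    · refine ⟨we R h, Lwe_mem R h, ?_⟩
      rw [we_conj, mul_assoc, Units.mul_inv, mul_one]
  rcases hP with ⟨i, rfl⟩ | ⟨i, j, hij, rfl⟩
  · exact key i
  · obtain ⟨g, hg, hgi⟩ := key i
    refine ⟨(un R hij)⁻¹ * g, ?_, ?_⟩
    · rw [UN.W.L_mul, UN.W.L_inv]
      exact Subgroup.mul_mem _ (Subgroup.inv_mem _ (Lun_mem R hij)) hg
    have e : N i i + N i j = (1 - N i j) * N i i * (1 + N i j) := by
      have h1 := R.dm i j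
      have h2 := R.md i j hij
      calc N i i + N i j = N i i + N i i * N i j -
            N i j * N i i - N i j * N i i * N i j := by
            rw [h1, h2]; simp
        _ = _ := by noncomm_ring
    rw [e, mul_inv_rev, inv_inv, Units.val_mul, Units.val_mul]
    change (1 - N i j) * N i i * (1 + N i j) = (1 - N i j) * (g : Matrix _ _ K) *
      N i0 i0 * (((g⁻¹ : Matrix.GeneralLinearGroup n K) : Matrix _ _ K) *
      (1 + N i j))
    nth_rewrite 1 [hgi]
    simp only [mul_assoc]

/-- The doubled group is a strong Mumford-Tate pair. -/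
theorem strong [CharZero K] (R : Rel N) (i0 : ι) :
    IsStrongMTPair ⊥ (UN.W.Jd K n) (GN N) (UN.W.D (N i0 i0)) := by
  have hpair : IsMTPair (UN.W.Jd K n) (GN N) :=
    isMTPair_gen UN.W.Jd_transpose UN.W.Jd_det (LamD_idem R) LamD_lag
  refine ⟨hpair.skew, hpair.det, hpair.sim, hpair.closed, ?_, ?_, ?_, ?_⟩
  · intro θ hθ
    rw [Subgroup.mem_bot] at hθ
    subst hθ
    exact ⟨RingEquiv.refl K, fun v w => rfl, fun c v => rfl⟩
  · intro θ hθ g hg
    rw [Subgroup.mem_bot] at hθ
    subst hθ
    exact ⟨g, hg, fun v => rfl⟩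
  · exact GN_coch R (Or.inl ⟨i0, rfl⟩)
  · intro H hH hall
    apply GenG_le hH
    rintro _ ⟨P, hP, rfl⟩
    obtain ⟨g, hg, hPg⟩ := conj_all R i0 hP
    apply hall
    refine ⟨1, Subgroup.one_mem _, UN.W.L g, hg, fun v => ?_⟩
    rw [Equiv.Perm.one_apply, Equiv.Perm.one_apply, Matrix.mulVec_mulVec,
      Matrix.mulVec_mulVec, UN.W.L_D, ← hPg]

/-- Block matrices in the commutant of the group. -/
lemma GN_com (R : Rel N) {e f : Matrix n n K} (he : ∀ i j, N i j * e = e * N i j)
    (hf : ∀ i j, (N i j).transpose * f = f * (N i j).transpose) :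
    ∀ g ∈ GN N, (g : Matrix (n ⊕ n) (n ⊕ n) K) * Matrix.fromBlocks e 0 0 f =
      Matrix.fromBlocks e 0 0 f * (g : Matrix (n ⊕ n) (n ⊕ n) K) := by
  have hle : GN N ≤ UN.W.Cen (Matrix.fromBlocks e 0 0 f) := by
    apply GenG_le (UN.W.Cen_closed _)
    rintro _ ⟨P, hP, rfl⟩
    apply cen_cochar (UN.W.D_idem (LamN_idem R P hP))
    have h1 : P * e = e * P ∧ P.transpose * f = f * P.transpose := by
      rcases hP with ⟨i, rfl⟩ | ⟨i, j, hij, rfl⟩
      · exact ⟨he i i, hf i i⟩
      · rw [Matrix.transpose_add, add_mul, mul_add, add_mul, mul_add, he i i, he i j, hf i i,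
          hf i j]
        exact ⟨rfl, rfl⟩
    have h2 : (1 - P.transpose) * f = f * (1 - P.transpose) := by
      rw [sub_mul, mul_sub, h1.2, one_mul, mul_one]
    rw [UN.W.D, Matrix.fromBlocks_multiply, Matrix.fromBlocks_multiply, h1.1, h2]
    simp
  exact fun g hg => hle hg

lemma Lun_sub (R : Rel N) {i j : ι} (h : i ≠ j) :
    (UN.W.L (un R h) : Matrix (n ⊕ n) (n ⊕ n) K) - 1 =
      Matrix.fromBlocks (N i j) 0 0 (-(N i j).transpose) := by
  have e1 : (un R h).val = 1 + N i j := rfl
  have e2 : ((un R h)⁻¹).val = 1 - N i j := rfl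
  rw [UN.W.L_val, e1, e2, ← Matrix.fromBlocks_one, sub_eq_add_neg, Matrix.fromBlocks_neg,
    Matrix.fromBlocks_add]
  congr 1
  · abel
  · simp
  · simp
  · rw [Matrix.transpose_sub, Matrix.transpose_one]
    abel

lemma isConj_refl (π : Matrix (n ⊕ n) (n ⊕ n) K) : IsConj ⊥ (GN N) π π :=
  ⟨1, Subgroup.one_mem _, 1, Subgroup.one_mem _, fun v => by simp⟩

/-- A place of bad reduction. -/
lemma badAt [CharZero K] (R : Rel N) {i j : ι} (h : i ≠ j) {W : Submodule K (n ⊕ n → K)} {r : ℕ}
    (hr : finrank K (W.map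
      (Matrix.fromBlocks (N i j) 0 0 (-(N i j).transpose)).mulVecLin) = r) :
    BadAt ⊥ (GN N) (UN.W.D (N i i)) W r := by
  intro γ hγ E
  rw [Subgroup.mem_bot] at hγ
  subst hγ
  refine ⟨1, Subgroup.one_mem _, fun v _ => rfl, UN.W.L (un R h), Lun_mem R h,
    UN.W.D (N i i), isConj_refl _, ?_, ?_, fun v => rfl, ?_⟩
  · rw [Lun_sub, UN.W.D, Matrix.fromBlocks_multiply]
    have h1 : (N i i).transpose * (N i j).transpose = 0 := by
      rw [← Matrix.transpose_mul, R.md i j h, Matrix.transpose_zero]
    congr 1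
    · rw [R.dm]; simp
    · simp
    · simp
    · rw [sub_mul, mul_neg, mul_neg, h1]; simp
  · rw [Lun_sub, UN.W.D, Matrix.fromBlocks_multiply]
    have h1 : (N i j).transpose * (N i i).transpose = (N i j).transpose := by
      rw [← Matrix.transpose_mul, R.dm i j]
    have h0 : (0 : Matrix (n ⊕ n) (n ⊕ n) K) = Matrix.fromBlocks 0 0 0 0 :=
      Matrix.fromBlocks_zero.symm
    rw [h0]
    congr 1
    · rw [R.md i j h]; simp
    · simp
    · simp
    · rw [mul_sub, neg_mul, neg_mul, h1]; simp
  · intro θ hθ U hU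
    rw [Subgroup.mem_bot] at hθ
    subst hθ
    have : U = W := by ext v; exact (hU v).symm
    rw [this, Lun_sub]
    exact hr

lemma hasSig {i : ι} {W : Submodule K (n ⊕ n → K)} {s : ℕ}
    (hs : min (rankOn (UN.W.D (N i i)) W) (finrank K W - rankOn (UN.W.D (N i i)) W) = s) :
    HasSig ⊥ (GN N) (UN.W.D (N i i)) W s :=
  ⟨_, isConj_refl _, hs⟩

end rel

end AV.SM
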